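import Mathlib
import Pool.Agent.H6.Lower

/-!
Upper bound for the number of `n ≤ X` with `n` and `n + 6` both prime.
-/

open Finset BoundingSieve ArithmeticFunction
open scoped ArithmeticFunction.Moebius ArithmeticFunction.zeta

namespace Pool.Agent.SXY

open Pool.Agent.H6

noncomputable section

/-- the counting of `n ≤ X` with `d ∣ n (n + 6)` for squarefree `d` -/
theorem card_dvd_sexy (X d : ℕ) (hd : Squarefree d) :
    |(((Finset.Icc 1 X).filter (fun n => d ∣ n * (n + 6))).card : ℝ) -
      (((d.divisors.filter (fun b => Nat.Coprime b 6)).card : ℝ) * ((X : ℝ) / d))| ≤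
      ((d.divisors.filter (fun b => Nat.Coprime b 6)).card : ℝ) := by
  have hd0 : d ≠ 0 := hd.ne_zero
  have hdpos : 0 < d := Nat.pos_of_ne_zero hd0
  -- decomposition
  have hdec : ∀ n : ℕ, (if d ∣ n * (n + 6) then (1 : ℝ) else 0) =
      ∑ b ∈ d.divisors.filter (fun b => Nat.Coprime b 6),
        if (d / b ∣ n ∧ b ∣ n + 6) then (1 : ℝ) else 0 := by
    intro n
    -- a prime dividing both numbers divides `6`
    have hcop : ∀ b : ℕ, Nat.Coprime b 6 → b ∣ n + 6 → Nat.Coprime b n := by
      intro b hb6 hb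
      apply Nat.coprime_of_dvd
      intro p hp h1 h2
      have h3 : p ∣ 6 := (Nat.dvd_add_right h2).mp (h1.trans hb)
      have h4 : p ∣ Nat.gcd b 6 := Nat.dvd_gcd h1 h3
      rw [hb6] at h4
      exact hp.one_lt.ne' (Nat.dvd_one.mp h4)
    split_ifs with h
    · -- `b` is the part of `d` coprime to `n`
      set b := d / Nat.gcd d n with hb
      have hgd : Nat.gcd d n ∣ d := Nat.gcd_dvd_left _ _
      have hbd : b ∣ d := Nat.div_dvd_of_dvd hgd
      have hgb : d / b = Nat.gcd d n := by
        rw [hb]; exact Nat.div_div_self hgd hd0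
      have hcopbg : Nat.Coprime b (Nat.gcd d n) := by
        apply Nat.coprime_of_squarefree_mul
        rw [hb, Nat.div_mul_cancel hgd]
        exact hd
      have hbn : Nat.Coprime b n := by
        apply Nat.coprime_of_dvd
        intro p hp h1 h2
        have h3 : p ∣ Nat.gcd d n := Nat.dvd_gcd (h1.trans hbd) h2
        have h4 : p ∣ Nat.gcd b (Nat.gcd d n) := Nat.dvd_gcd h1 h3
        rw [hcopbg] at h4
        exact hp.one_lt.ne' (Nat.dvd_one.mp h4)
      have hb6n : b ∣ n + 6 := hbn.dvd_of_dvd_mul_left (hbd.trans h)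
      have hb6 : Nat.Coprime b 6 := by
        apply Nat.coprime_of_dvd
        intro p hp h1 h2
        have h3 : p ∣ n := (Nat.dvd_add_left h2).mp (h1.trans hb6n)
        have h4 : p ∣ Nat.gcd b n := Nat.dvd_gcd h1 h3
        rw [hbn] at h4
        exact hp.one_lt.ne' (Nat.dvd_one.mp h4)
      have hmem : b ∈ d.divisors.filter (fun b => Nat.Coprime b 6) := by
        rw [Finset.mem_filter, Nat.mem_divisors]
        exact ⟨⟨hbd, hd0⟩, hb6⟩
      rw [Finset.sum_eq_single_of_mem b hmem]
      · rw [if_pos]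
        refine ⟨?_, hb6n⟩
        rw [hgb]
        exact Nat.gcd_dvd_right _ _
      · intro b' hb' hne
        rw [Finset.mem_filter, Nat.mem_divisors] at hb'
        rw [if_neg]
        rintro ⟨h1, h2⟩
        apply hne
        have hb'n : Nat.Coprime b' n := hcop b' hb'.2 h2
        -- `d / b' ∣ gcd d n` and `b' ∣ b`
        have h3 : d / b' ∣ Nat.gcd d n := Nat.dvd_gcd (Nat.div_dvd_of_dvd hb'.1.1) h1
        have h4 : Nat.gcd d n ∣ d / b' := by
          have h5 : Nat.Coprime (Nat.gcd d n) b' :=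
            (Nat.Coprime.coprime_dvd_right (Nat.gcd_dvd_right d n) hb'n).symm
          have h6 : Nat.gcd d n ∣ (d / b') * b' := by
            rw [Nat.div_mul_cancel hb'.1.1]; exact hgd
          exact h5.dvd_of_dvd_mul_right h6
        have h5 : d / b' = Nat.gcd d n := Nat.dvd_antisymm h3 h4
        rw [hb, ← h5, Nat.div_div_self hb'.1.1 hd0]
    · symm
      apply Finset.sum_eq_zero
      intro b hb
      rw [Finset.mem_filter, Nat.mem_divisors] at hb
      rw [if_neg]
      rintro ⟨h1, h2⟩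
      apply h
      have := Nat.mul_dvd_mul h1 h2
      rwa [Nat.div_mul_cancel hb.1.1] at this
  -- each class
  have hclass : ∀ b ∈ d.divisors.filter (fun b => Nat.Coprime b 6),
      |(∑ n ∈ Finset.Icc 1 X, if (d / b ∣ n ∧ b ∣ n + 6) then (1 : ℝ) else 0) - (X : ℝ) / d| ≤ 1 := by
    intro b hb
    rw [Finset.mem_filter, Nat.mem_divisors] at hb
    obtain ⟨⟨hbd, _⟩, _⟩ := hb
    have hbpos : 0 < b := Nat.pos_of_dvd_of_pos hbd hdpos
    have hcop3 : Nat.Coprime (d / b) b := by
      apply Nat.coprime_of_squarefree_mul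
      rwa [Nat.div_mul_cancel hbd]
    -- solve n + 6 ≡ 0 mod b
    obtain ⟨r, hr⟩ : ∃ r : ℕ, r + 6 ≡ 0 [MOD b] := by
      have : NeZero b := ⟨hbpos.ne'⟩
      refine ⟨(-(6 : ZMod b)).val, ?_⟩
      rw [← ZMod.natCast_eq_natCast_iff]
      push_cast
      rw [ZMod.natCast_zmod_val]
      simp
    obtain ⟨c, hc1, hc2⟩ := Nat.chineseRemainder hcop3 0 r
    have hiff : ∀ n : ℕ, (d / b ∣ n ∧ b ∣ n + 6) ↔ n ≡ c [MOD d] := by
      intro n
      have hd' : d = (d / b) * b := (Nat.div_mul_cancel hbd).symm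
      constructor
      · rintro ⟨h1, h2⟩
        rw [hd', ← Nat.modEq_and_modEq_iff_modEq_mul hcop3]
        constructor
        · exact ((Nat.modEq_zero_iff_dvd).mpr h1).trans hc1.symm
        · have h3 : n + 6 ≡ r + 6 [MOD b] := ((Nat.modEq_zero_iff_dvd).mpr h2).trans hr.symm
          have h5 : n ≡ r [MOD b] := Nat.ModEq.add_right_cancel' 6 h3
          exact h5.trans hc2.symm
      · intro h
        rw [hd', ← Nat.modEq_and_modEq_iff_modEq_mul hcop3] at h
        constructor
        · exact (Nat.modEq_zero_iff_dvd).mp (h.1.trans hc1)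
        · apply (Nat.modEq_zero_iff_dvd).mp
          have h5 : n ≡ r [MOD b] := h.2.trans hc2
          exact (h5.add_right 6).trans hr
    simp_rw [hiff]
    rw [Finset.sum_boole]
    exact card_modEq_Icc X d c hdpos
  have hcount : (((Finset.Icc 1 X).filter (fun n => d ∣ n * (n + 6))).card : ℝ) =
      ∑ b ∈ d.divisors.filter (fun b => Nat.Coprime b 6),
        ∑ n ∈ Finset.Icc 1 X, if (d / b ∣ n ∧ b ∣ n + 6) then (1 : ℝ) else 0 := by
    rw [← Finset.sum_boole]
    simp_rw [hdec]
    rw [Finset.sum_comm]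
  rw [hcount]
  have : (((d.divisors.filter (fun b => Nat.Coprime b 6)).card : ℝ) * ((X : ℝ) / d)) =
      ∑ b ∈ d.divisors.filter (fun b => Nat.Coprime b 6), (X : ℝ) / d := by
    rw [Finset.sum_const, nsmul_eq_mul]
  rw [this, ← Finset.sum_sub_distrib]
  refine (Finset.abs_sum_le_sum_abs _ _).trans ?_
  refine (Finset.sum_le_sum hclass).trans ?_
  rw [Finset.sum_const, nsmul_eq_mul, mul_one]

theorem two_dvd_six : 2 ∣ 6 := by norm_num

/-- the sieve for pairs `n`, `n + 6` -/
def sexySieve (X z : ℕ) : BoundingSieve where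
  support := (Finset.Icc 1 X).image (fun n => n * (n + 6))
  prodPrimes := primorial z
  prodPrimes_squarefree := squarefree_primorial z
  weights := fun _ => 1
  weights_nonneg := fun _ => zero_le_one
  totalMass := X
  nu := prodPrimeFactors (locF 6)
  nu_mult := IsMultiplicative.prodPrimeFactors _
  nu_pos_of_prime := (pairSieve 6 X z two_dvd_six).nu_pos_of_prime
  nu_lt_one_of_prime := (pairSieve 6 X z two_dvd_six).nu_lt_one_of_prime

theorem sexy_injOn (X : ℕ) :
    Set.InjOn (fun n => n * (n + 6)) (Finset.Icc 1 X : Set ℕ) := by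
  intro a _ b _ hab
  dsimp only at hab
  rcases lt_trichotomy a b with h | h | h
  · exfalso; nlinarith
  · exact h
  · exfalso; nlinarith

theorem sexy_multSum (X z d : ℕ) :
    (sexySieve X z).multSum d =
      (((Finset.Icc 1 X).filter (fun n => d ∣ n * (n + 6))).card : ℝ) := by
  unfold multSum sexySieve
  dsimp only
  rw [Finset.sum_image (sexy_injOn X), Finset.sum_boole]

theorem sexy_rem (X z d : ℕ) (hd : Squarefree d) :
    |(sexySieve X z).rem d| ≤ d := by
  unfold BoundingSieve.rem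
  rw [sexy_multSum]
  have h1 : (sexySieve X z).nu d = ((d.divisors.filter (fun b => Nat.Coprime b 6)).card : ℝ) / d :=
    nu_eq 6 d hd
  have h2 : (sexySieve X z).totalMass = X := rfl
  rw [h1, h2]
  have h3 := card_dvd_sexy X d hd
  have h4 : ((d.divisors.filter (fun b => Nat.Coprime b 6)).card : ℝ) / d * X =
      ((d.divisors.filter (fun b => Nat.Coprime b 6)).card : ℝ) * ((X : ℝ) / d) := by ring
  rw [h4]
  refine h3.trans ?_
  have h5 : (d.divisors.filter (fun b => Nat.Coprime b 6)).card ≤ d :=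
    (Finset.card_filter_le _ _).trans (Nat.card_divisors_le_self d)
  exact_mod_cast h5

theorem SS_eq (X D : ℕ) : SS (sexySieve X D) D = SS (pairSieve 6 X D two_dvd_six) D := rfl

theorem sexy_sieve_bound (X D : ℕ) (hD : 1 ≤ D) :
    (sexySieve X D).siftedSum ≤ (X : ℝ) / SS (sexySieve X D) D + (D : ℝ) ^ 6 := by
  have h := selberg_bound (sexySieve X D) D hD (D : ℝ) ((D : ℝ) ^ 2) (by positivity) (by positivity)
    ?_ ?_
  · refine h.trans (le_of_eq ?_)
    have h2 : (sexySieve X D).totalMass = X := rfl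
    rw [h2]
    ring
  · intro d hdP hdD
    have hsq : Squarefree d := (squarefree_primorial D).squarefree_of_dvd hdP
    have h1 : ((sexySieve X D).nu d)⁻¹ ≤ d := pair_nu_inv 6 X D d two_dvd_six hsq
    refine h1.trans ?_
    exact_mod_cast hdD
  · intro d hdP hdD
    have hsq : Squarefree d := (squarefree_primorial D).squarefree_of_dvd hdP
    refine (sexy_rem X D d hsq).trans ?_
    exact_mod_cast hdD

/-- the set of `q ≤ X` with `q` and `q + 6` prime -/
def sexy (X : ℕ) : Finset ℕ := (Finset.Icc 1 X).filter (fun q => q.Prime ∧ (q + 6).Prime)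

theorem card_sexy_le (X D : ℕ) :
    ((sexy X).card : ℝ) ≤ D + (sexySieve X D).siftedSum := by
  have h1 : (sexySieve X D).siftedSum =
      (((Finset.Icc 1 X).filter (fun n => Nat.Coprime (primorial D) (n * (n + 6)))).card : ℝ) := by
    unfold siftedSum sexySieve
    dsimp only
    rw [Finset.sum_image (sexy_injOn X), Finset.sum_boole]
  rw [h1]
  have h2 : sexy X ⊆
      Finset.Icc 1 D ∪ (Finset.Icc 1 X).filter (fun n => Nat.Coprime (primorial D) (n * (n + 6))) := by
    intro q hq
    unfold sexy at hq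
    rw [Finset.mem_filter, Finset.mem_Icc] at hq
    obtain ⟨⟨hq1, hqX⟩, hqp, hmq⟩ := hq
    rw [Finset.mem_union, Finset.mem_Icc, Finset.mem_filter, Finset.mem_Icc]
    by_cases hqD : q ≤ D
    · left; exact ⟨hq1, hqD⟩
    · right
      refine ⟨⟨hq1, hqX⟩, ?_⟩
      push Not at hqD
      have h3 : Nat.Coprime (primorial D) q := by
        apply Nat.Coprime.symm
        rw [hqp.coprime_iff_not_dvd, hqp.dvd_primorial_iff]
        omega
      have h4 : Nat.Coprime (primorial D) (q + 6) := by
        apply Nat.Coprime.symm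
        rw [hmq.coprime_iff_not_dvd, hmq.dvd_primorial_iff]
        omega
      exact Nat.Coprime.mul_right h3 h4
  have h3 := (Finset.card_le_card h2).trans (Finset.card_union_le _ _)
  rw [Nat.card_Icc, Nat.add_sub_cancel] at h3
  exact_mod_cast h3

/-- explicit upper bound for prime pairs `q, q + 6` -/
theorem card_sexy_explicit (X w : ℕ) (hw : 2 ≤ w) :
    ((sexy X).card : ℝ) ≤ 16 * X / (Real.log w) ^ 2 + 2 * (w : ℝ) ^ 12 := by
  have h1 := card_sexy_le X (w ^ 2)
  have h2 := sexy_sieve_bound X (w ^ 2) (Nat.one_le_pow _ _ (by omega))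
  have h3 := log_sq_le 6 X w two_dvd_six (by norm_num) (by omega)
  rw [← SS_eq] at h3
  have hs : ∑ h ∈ Nat.divisors 6, (1 : ℝ) / h = 2 := by
    have : Nat.divisors 6 = {1, 2, 3, 6} := by decide
    rw [this]
    norm_num
  rw [hs] at h3
  have hlog : 0 < Real.log w := Real.log_pos (by exact_mod_cast (by omega : 1 < w))
  have hS : 0 < SS (sexySieve X (w ^ 2)) (w ^ 2) :=
    lt_of_lt_of_le one_pos (one_le_SS _ _ (Nat.one_le_pow _ _ (by omega)))
  have h4 : (X : ℝ) / SS (sexySieve X (w ^ 2)) (w ^ 2) ≤ 16 * X / (Real.log w) ^ 2 := by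
    rw [div_le_div_iff₀ hS (by positivity)]
    calc (X : ℝ) * (Real.log w) ^ 2 ≤ X * (8 * 2 * SS (sexySieve X (w ^ 2)) (w ^ 2)) := by
          gcongr
      _ = _ := by ring
  have h5 : ((w ^ 2 : ℕ) : ℝ) + (((w ^ 2 : ℕ) : ℝ)) ^ 6 ≤ 2 * (w : ℝ) ^ 12 := by
    push_cast
    have hw1 : (1 : ℝ) ≤ w := by exact_mod_cast (by omega : 1 ≤ w)
    have : (w : ℝ) ^ 2 ≤ (w : ℝ) ^ 12 := pow_le_pow_right₀ hw1 (by norm_num)
    have h6 : ((w : ℝ) ^ 2) ^ 6 = (w : ℝ) ^ 12 := by ring
    rw [h6]
    linarith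
  linarith

/-- the same bound with a real parameter -/
theorem card_sexy_real (X : ℕ) (t : ℝ) (ht : (2 : ℝ) ^ 24 ≤ t) :
    ((sexy X).card : ℝ) ≤ 9216 * X / (Real.log t) ^ 2 + 2 * t := by
  set u : ℝ := t ^ ((1 : ℝ) / 12) with hu
  have ht0 : (0 : ℝ) < t := lt_of_lt_of_le (by positivity) ht
  have hu12 : u ^ 12 = t := by
    rw [hu, ← Real.rpow_natCast, ← Real.rpow_mul ht0.le]
    norm_num
  have hu0 : 0 < u := Real.rpow_pos_of_pos ht0 _
  have hu4 : 4 ≤ u := by
    by_contra h
    push Not at h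
    have : u ^ 12 < 4 ^ 12 := pow_lt_pow_left₀ h hu0.le (by norm_num)
    rw [hu12] at this
    norm_num at this ht
    linarith
  set w : ℕ := ⌊u⌋₊ with hw
  have hwu : (w : ℝ) ≤ u := Nat.floor_le hu0.le
  have hwu2 : u < w + 1 := Nat.lt_floor_add_one u
  have hw2 : 2 ≤ w := by
    apply Nat.le_floor
    push_cast
    linarith
  have hwhalf : u / 2 ≤ w := by linarith
  have hlogt : Real.log t = 12 * Real.log u := by
    rw [← hu12, Real.log_pow]
    norm_num
  have hlog2u : 2 * Real.log 2 ≤ Real.log u := by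
    have h1 : Real.log 4 ≤ Real.log u := Real.log_le_log (by norm_num) hu4
    have h2 : Real.log 4 = 2 * Real.log 2 := by
      rw [show (4 : ℝ) = 2 ^ 2 by norm_num, Real.log_pow]
      norm_num
    linarith
  have hlogw : Real.log t / 24 ≤ Real.log w := by
    have h1 : Real.log (u / 2) ≤ Real.log w := Real.log_le_log (by positivity) hwhalf
    rw [Real.log_div hu0.ne' (by norm_num)] at h1
    rw [hlogt]
    linarith
  have hlogt0 : 0 < Real.log t := by
    rw [hlogt]
    have := Real.log_pos (show (1 : ℝ) < 2 by norm_num)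
    linarith
  have h := card_sexy_explicit X w hw2
  have h1 : 16 * (X : ℝ) / (Real.log w) ^ 2 ≤ 9216 * X / (Real.log t) ^ 2 := by
    have h2 : (Real.log t / 24) ^ 2 ≤ (Real.log w) ^ 2 :=
      pow_le_pow_left₀ (by positivity) hlogw 2
    calc 16 * (X : ℝ) / (Real.log w) ^ 2 ≤ 16 * X / (Real.log t / 24) ^ 2 := by
          gcongr
      _ = 9216 * X / (Real.log t) ^ 2 := by
          field_simp
          ring
  have h2 : 2 * (w : ℝ) ^ 12 ≤ 2 * t := by
    have : (w : ℝ) ^ 12 ≤ u ^ 12 := pow_le_pow_left₀ (by positivity) hwu 12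
    rw [hu12] at this
    linarith
  linarith

end

end Pool.Agent.SXY
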